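import Mathlib

/-! Dual potentials for the assignment problem. -/

set_option autoImplicit false

open Finset

namespace Pool.Agent.P.MP_be7f3b_co

variable {ι : Type*} [Fintype ι]

theorem closed_walk_nonneg (c : ι → ι → ℝ) (h0 : ∀ i, c i i = 0)
    (h : ∀ σ : Equiv.Perm ι, 0 ≤ ∑ i, c i (σ i)) (k : ℕ) :
    ∀ v : ℕ → ι, v k = v 0 → 0 ≤ ∑ t ∈ range k, c (v t) (v (t + 1)) := by
  induction k using Nat.strong_induction_on with
  | _ k ih =>
  intro v hv
  by_cases hinj : ∀ a b, a < b → b < k → v a ≠ v b
  · cases k with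
    | zero => simp
    | succ m =>
      let e : Fin (m + 1) ↪ ι := ⟨fun t => v t, fun a b hab => by
        rcases lt_trichotomy a b with hlt | heq | hlt
        · exact absurd hab (hinj _ _ hlt b.2)
        · exact heq
        · exact absurd hab.symm (hinj _ _ hlt a.2)⟩
      have h1 := h ((finRotate (m + 1)).viaEmbedding e)
      rw [← Finset.sum_subset (Finset.subset_univ (Finset.univ.map e)), Finset.sum_map] at h1
      · rw [Finset.sum_range fun t => c (v t) (v (t + 1))]
        refine h1.trans_eq (Finset.sum_congr rfl fun t _ => ?_)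
        rw [Equiv.Perm.viaEmbedding_apply]
        congr 1
        change v (finRotate (m + 1) t) = _
        by_cases ht : t = Fin.last m
        · subst ht
          simp [hv]
        · rw [coe_finRotate_of_ne_last ht]
      · intro x _ hx
        rw [Equiv.Perm.viaEmbedding_apply_of_notMem, h0]
        rintro ⟨t, rfl⟩
        exact hx (Finset.mem_map_of_mem _ (Finset.mem_univ _))
  · push Not at hinj
    obtain ⟨a, b, hab, hbk, hvab⟩ := hinj
    obtain ⟨p, rfl⟩ := Nat.exists_eq_add_of_le hab.le
    obtain ⟨q, rfl⟩ := Nat.exists_eq_add_of_le hbk.le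
    have h1 := ih p (by omega) (fun t => v (a + t)) (by simp [hvab])
    have h2 := ih (a + q) (by omega) (fun t => if t ≤ a then v t else v (t + p)) (by
      have : ¬ a + q ≤ a := by omega
      simp only [this, if_false, Nat.zero_le, if_true, ← hv]
      congr 1
      omega)
    rw [Finset.sum_range_add] at h2
    rw [Finset.sum_range_add, Finset.sum_range_add]
    have e1 : ∑ t ∈ range a, c (if t ≤ a then v t else v (t + p))
        (if t + 1 ≤ a then v (t + 1) else v (t + 1 + p)) = ∑ t ∈ range a, c (v t) (v (t + 1)) := by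
      refine Finset.sum_congr rfl fun t ht => ?_
      have ht := Finset.mem_range.1 ht
      rw [if_pos ht.le, if_pos (by omega)]
    have e2 : ∑ t ∈ range q, c (if a + t ≤ a then v (a + t) else v (a + t + p))
        (if a + t + 1 ≤ a then v (a + t + 1) else v (a + t + 1 + p)) =
        ∑ t ∈ range q, c (v (a + p + t)) (v (a + p + t + 1)) := by
      refine Finset.sum_congr rfl fun t _ => ?_
      rw [if_neg (by omega : ¬ a + t + 1 ≤ a)]
      congr 1
      · split_ifs with hh
        · have : t = 0 := by omega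
          subst this
          simpa using hvab
        · congr 1
          omega
      · congr 1
        omega
    rw [e1, e2] at h2
    simp only [← add_assoc] at h1
    linarith

theorem exists_potential (c : ι → ι → ℝ) (h0 : ∀ i, c i i = 0)
    (h : ∀ σ : Equiv.Perm ι, 0 ≤ ∑ i, c i (σ i)) :
    ∃ φ : ι → ℝ, ∀ i j, φ j - φ i ≤ c i j := by
  cases isEmpty_or_nonempty ι with
  | inl _ => exact ⟨fun _ => 0, fun i => isEmptyElim i⟩
  | inr hne =>
  obtain ⟨s⟩ := hne
  let S : ι → Set ℝ := fun j =>
    {x | ∃ k, ∃ v : ℕ → ι, v 0 = s ∧ v k = j ∧ x = ∑ t ∈ range k, c (v t) (v (t + 1))}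
  have hext : ∀ i j, ∀ x ∈ S i, x + c i j ∈ S j := by
    rintro i j x ⟨k, v, hv0, hvk, rfl⟩
    refine ⟨k + 1, fun t => if t ≤ k then v t else j, by simp [hv0], by simp, ?_⟩
    rw [Finset.sum_range_succ]
    congr 1
    · refine Finset.sum_congr rfl fun t ht => ?_
      have ht := Finset.mem_range.1 ht
      simp only
      rw [if_pos ht.le, if_pos (by omega)]
    · simp [hvk]
  have hs : ∀ x ∈ S s, 0 ≤ x := by
    rintro x ⟨k, v, hv0, hvk, rfl⟩
    exact closed_walk_nonneg c h0 h k v (hvk.trans hv0.symm)
  have hne : ∀ j, (S j).Nonempty := fun j =>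
    ⟨_, hext s j 0 ⟨0, fun _ => s, rfl, rfl, by simp⟩⟩
  have hbdd : ∀ j, BddBelow (S j) := fun j =>
    ⟨-c j s, fun x hx => by linarith [hs _ (hext j s x hx)]⟩
  refine ⟨fun j => sInf (S j), fun i j => ?_⟩
  have : sInf (S j) - c i j ≤ sInf (S i) :=
    le_csInf (hne i) fun x hx => by linarith [csInf_le (hbdd j) (hext i j x hx)]
  linarith

end Pool.Agent.P.MP_be7f3b_co
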