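import Mathlib
import Pool.Agent.P.MP_be7f3b_co.Potentials

/-! A centre for two families of balls in which every red ball meets every blue ball. -/

set_option autoImplicit false

open Finset Filter Topology Pointwise
open scoped RealInnerProductSpace

namespace Pool.Agent.P.MP_be7f3b_co

variable {E : Type*} [NormedAddCommGroup E] [InnerProductSpace ℝ E]

theorem exists_direction (U V : Set E) (hU : U.Finite) (hV : V.Finite) (hUn : U.Nonempty)
    (hVn : V.Nonempty) (h : ∀ u ∈ U, ∀ v ∈ V, 0 < ⟪u, v⟫) :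
    ∃ p : E, ∀ u ∈ U, ∀ v ∈ V, 0 < ⟪u, p⟫ + ⟪v, p⟫ := by
  have h1 : ∀ u ∈ convexHull ℝ U, ∀ v ∈ V, 0 < ⟪u, v⟫ := by
    intro u hu v hv
    have hc : Convex ℝ {x : E | 0 < ⟪x, v⟫} :=
      convex_halfSpace_gt (f := fun x : E => ⟪x, v⟫)
        ⟨fun x y => inner_add_left _ _ _, fun a x => by simp [inner_smul_left]⟩ 0
    exact convexHull_min (fun x hx => h x hx v hv) hc hu
  have h2 : ∀ u ∈ convexHull ℝ U, ∀ v ∈ convexHull ℝ V, 0 < ⟪u, v⟫ := by
    intro u hu v hv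
    have hc : Convex ℝ {x : E | 0 < ⟪u, x⟫} :=
      convex_halfSpace_gt (f := fun x : E => ⟪u, x⟫)
        ⟨fun x y => inner_add_right _ _ _, fun a x => by simp [inner_smul_right]⟩ 0
    exact convexHull_min (fun x hx => h1 u hu x hx) hc hv
  have hcomp : IsCompact (convexHull ℝ U + convexHull ℝ V) :=
    (hU.isCompact_convexHull ℝ).add (hV.isCompact_convexHull ℝ)
  have hconv : Convex ℝ (convexHull ℝ U + convexHull ℝ V) :=
    (convex_convexHull ℝ U).add (convex_convexHull ℝ V)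
  have hne : (convexHull ℝ U + convexHull ℝ V).Nonempty :=
    (hUn.mono (subset_convexHull ℝ U)).add (hVn.mono (subset_convexHull ℝ V))
  obtain ⟨p, hp, hmin⟩ := exists_norm_eq_iInf_of_complete_convex hne hcomp.isComplete hconv 0
  rw [norm_eq_iInf_iff_real_inner_le_zero hconv hp] at hmin
  have hp0 : p ≠ 0 := by
    rintro rfl
    obtain ⟨u, hu, v, hv, huv⟩ := hp
    have h3 := h2 u hu v hv
    have : v = -u := eq_neg_of_add_eq_zero_right huv
    rw [this, inner_neg_right] at h3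
    linarith [real_inner_self_nonneg (x := u)]
  refine ⟨p, fun u hu v hv => ?_⟩
  have h3 := hmin (u + v) (Set.add_mem_add (subset_convexHull ℝ U hu) (subset_convexHull ℝ V hv))
  rw [zero_sub, inner_neg_left, inner_sub_right, inner_add_right] at h3
  have h4 : 0 < ⟪p, p⟫ := real_inner_self_pos.2 hp0
  rw [real_inner_comm p u, real_inner_comm p v]
  linarith

theorem norm_sub_smul_le (a p : E) (ha : a ≠ 0) (ε : ℝ) :
    ‖a - ε • p‖ ≤ ‖a‖ - ε * ⟪‖a‖⁻¹ • a, p⟫ + ε * (ε * (‖p‖ ^ 2 / (2 * ‖a‖))) := by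
  have ha' : 0 < ‖a‖ := norm_pos_iff.2 ha
  have h1 : ‖a - ε • p‖ ^ 2 = ‖a‖ ^ 2 - 2 * (ε * ⟪a, p⟫) + ε ^ 2 * ‖p‖ ^ 2 := by
    rw [norm_sub_sq_real, inner_smul_right, norm_smul, mul_pow, Real.norm_eq_abs, sq_abs]
  rw [real_inner_smul_left]
  have h2 : ‖a‖ - ε * (‖a‖⁻¹ * ⟪a, p⟫) + ε * (ε * (‖p‖ ^ 2 / (2 * ‖a‖))) =
      (‖a - ε • p‖ ^ 2 + ‖a‖ ^ 2) / (2 * ‖a‖) := by
    rw [h1]
    field_simp
    ring
  rw [h2, le_div_iff₀ (by positivity)]
  nlinarith [sq_nonneg (‖a - ε • p‖ - ‖a‖)]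

theorem inner_pos_of_lt (a b : E) (h : √2 * ‖a - b‖ < ‖a‖ + ‖b‖) : 0 < ⟪a, b⟫ := by
  have h1 : (√2 * ‖a - b‖) ^ 2 < (‖a‖ + ‖b‖) ^ 2 :=
    pow_lt_pow_left₀ h (by positivity) two_ne_zero
  rw [mul_pow, Real.sq_sqrt zero_le_two, norm_sub_sq_real] at h1
  nlinarith [sq_nonneg (‖a‖ - ‖b‖)]

theorem exists_center_fd [FiniteDimensional ℝ E] {ι : Type*} [Fintype ι] (r b : ι → E)
    (φ ψ : ι → ℝ) (h : ∀ i j, ‖r i - b j‖ ≤ φ i + ψ j) :
    ∃ o : E, ∀ i j, ‖r i - o‖ + ‖b j - o‖ ≤ √2 * (φ i + ψ j) := by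
  cases isEmpty_or_nonempty ι with
  | inl _ => exact ⟨0, fun i => isEmptyElim i⟩
  | inr hne =>
  obtain ⟨i0⟩ := id hne
  let g : ι × ι → E → ℝ := fun x o => ‖r x.1 - o‖ + ‖b x.2 - o‖ - √2 * (φ x.1 + ψ x.2)
  have hg : ∀ x, Continuous (g x) := fun x => by fun_prop
  let H : E → ℝ := fun o => univ.sup' univ_nonempty fun x => g x o
  have hH : Continuous H := Continuous.finset_sup'_apply univ_nonempty fun x _ => hg x
  have hle : ∀ x o, g x o ≤ H o := fun x o => Finset.le_sup' (fun x => g x o) (mem_univ x)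
  have hco : Tendsto H (cocompact E) atTop := by
    have h1 : Tendsto (fun o : E => dist (r i0) o + -(√2 * (φ i0 + ψ i0))) (cocompact E) atTop :=
      tendsto_atTop_add_const_right _ _ (tendsto_dist_left_cocompact_atTop _)
    refine tendsto_atTop_mono (fun o => le_trans ?_ (hle (i0, i0) o)) h1
    simp only [g, dist_eq_norm]
    linarith [norm_nonneg (b i0 - o)]
  obtain ⟨o, ho⟩ := hH.exists_forall_le hco
  refine ⟨o, ?_⟩
  suffices hm : H o ≤ 0 by
    intro i j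
    have := (hle (i, j) o).trans hm
    simp only [g] at this
    linarith
  by_contra hm
  push Not at hm
  have hpos : ∀ i j, g (i, j) o = H o → 0 < ⟪r i - o, b j - o⟫ := by
    intro i j hij
    refine inner_pos_of_lt _ _ ?_
    rw [sub_sub_sub_cancel_right]
    have : √2 * ‖r i - b j‖ ≤ √2 * (φ i + ψ j) :=
      mul_le_mul_of_nonneg_left (h i j) (Real.sqrt_nonneg 2)
    simp only [g] at hij
    linarith
  have hswap : ∀ i j k l, g (i, j) o = H o → g (k, l) o = H o → g (i, l) o = H o := by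
    intro i j k l h1 h2
    have h3 := hle (i, l) o
    have h4 := hle (k, j) o
    simp only [g] at h1 h2 h3 h4 ⊢
    linarith
  obtain ⟨x0, -, hx0⟩ := Finset.exists_mem_eq_sup' univ_nonempty fun x => g x o
  obtain ⟨p, hp⟩ := exists_direction
    ((fun x : ι × ι => ‖r x.1 - o‖⁻¹ • (r x.1 - o)) '' {x | g x o = H o})
    ((fun x : ι × ι => ‖b x.2 - o‖⁻¹ • (b x.2 - o)) '' {x | g x o = H o})
    ((Set.toFinite _).image _) ((Set.toFinite _).image _)
    ⟨_, x0, hx0.symm, rfl⟩ ⟨_, x0, hx0.symm, rfl⟩ (by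
      rintro _ ⟨⟨i, j⟩, hij, rfl⟩ _ ⟨⟨k, l⟩, hkl, rfl⟩
      have h1 := hpos i l (hswap i j k l hij hkl)
      have h2 : r i - o ≠ 0 := fun h0 => by simp [h0] at h1
      have h3 : b l - o ≠ 0 := fun h0 => by simp [h0] at h1
      simp only [real_inner_smul_left, real_inner_smul_right]
      have := norm_pos_iff.2 h2
      have := norm_pos_iff.2 h3
      positivity)
  have hev : ∀ x, ∀ᶠ ε in 𝓝[>] (0 : ℝ), g x (o + ε • p) < H o := by
    intro x
    rcases (hle x o).lt_or_eq with hlt | heq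
    · have hc : ContinuousAt (fun ε : ℝ => g x (o + ε • p)) 0 := by fun_prop
      refine nhdsWithin_le_nhds (hc.eventually_lt continuousAt_const ?_)
      simpa using hlt
    · obtain ⟨i, j⟩ := x
      have h1 := hpos i j heq
      have h2 : r i - o ≠ 0 := fun h0 => by simp [h0] at h1
      have h3 : b j - o ≠ 0 := fun h0 => by simp [h0] at h1
      have h4 := hp _ ⟨(i, j), heq, rfl⟩ _ ⟨(i, j), heq, rfl⟩
      have hc : ContinuousAt (fun ε : ℝ => ε * (‖p‖ ^ 2 / (2 * ‖r i - o‖)) +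
          ε * (‖p‖ ^ 2 / (2 * ‖b j - o‖))) 0 := by fun_prop
      have h5 := hc.eventually_lt (continuousAt_const (y := ⟪‖r i - o‖⁻¹ • (r i - o), p⟫ +
        ⟪‖b j - o‖⁻¹ • (b j - o), p⟫)) (by simpa using h4)
      filter_upwards [nhdsWithin_le_nhds h5, self_mem_nhdsWithin] with ε h6 hε
      have h7 := norm_sub_smul_le (r i - o) p h2 ε
      have h8 := norm_sub_smul_le (b j - o) p h3 ε
      have h9 := mul_lt_mul_of_pos_left h6 (show 0 < ε from hε)
      simp only [g, ← sub_sub] at heq ⊢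
      linarith
  obtain ⟨ε, hε⟩ := (eventually_all.2 hev).exists
  obtain ⟨x1, -, hx1⟩ := Finset.exists_mem_eq_sup' univ_nonempty fun x => g x (o + ε • p)
  exact (ho (o + ε • p)).not_gt (hx1.trans_lt (hε x1))

theorem exists_center {ι : Type*} [Fintype ι] (r b : ι → E)
    (φ ψ : ι → ℝ) (h : ∀ i j, ‖r i - b j‖ ≤ φ i + ψ j) :
    ∃ o : E, ∀ i j, ‖r i - o‖ + ‖b j - o‖ ≤ √2 * (φ i + ψ j) := by
  let V : Submodule ℝ E := Submodule.span ℝ (Set.range r ∪ Set.range b)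
  have : FiniteDimensional ℝ V :=
    FiniteDimensional.span_of_finite ℝ ((Set.finite_range r).union (Set.finite_range b))
  obtain ⟨o, ho⟩ := exists_center_fd (E := V)
    (fun i => ⟨r i, Submodule.subset_span (Or.inl ⟨i, rfl⟩)⟩)
    (fun i => ⟨b i, Submodule.subset_span (Or.inr ⟨i, rfl⟩)⟩) φ ψ h
  exact ⟨o, ho⟩

end Pool.Agent.P.MP_be7f3b_co
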